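import Mathlib

/-! A subshift over an arbitrary infinite group which is `3`-tame and not tame. -/

namespace Pool.Agent.X194.TT

open Topology Filter Set

universe u

/-- `J` is an independence set for `(U₁,…,Uₙ)`: for every nonempty finite `I ⊆ J` and every
`σ : I → {1,…,n}` some point `x` satisfies `g • x ∈ U (σ g)` for all `g ∈ I`. -/
def IsIndependenceSet {G X : Type u} [Group G] [MulAction G X] {n : ℕ} (U : Fin n → Set X)
    (J : Set G) : Prop :=
  ∀ I : Finset G, I.Nonempty → (I : Set G) ⊆ J → ∀ σ : I → Fin n,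
    (⋂ g : I, (fun x : X => g.1 • x) ⁻¹' U (σ g)).Nonempty

/-- IT-tuples -/
def IsITTuple (G : Type u) {X : Type u} [Group G] [TopologicalSpace X] [MulAction G X] {n : ℕ}
    (x : Fin n → X) : Prop :=
  ∀ U : Fin n → Set X, (∀ i, U i ∈ 𝓝 (x i)) → ∃ J : Set G, J.Infinite ∧ IsIndependenceSet U J

/-- The system is `n`-tame: every IT-tuple of length `n` has two equal coordinates. -/
def IsNTame (G X : Type u) [Group G] [TopologicalSpace X] [MulAction G X] (n : ℕ) : Prop :=
  ∀ x : Fin n → X, IsITTuple G x → ∃ i j, i ≠ j ∧ x i = x j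

section

variable {G : Type u} [Group G]

/-! ### a sparse sequence -/

open Classical in
/-- the forbidden elements -/
noncomputable def bad (F : Finset G) : Finset G :=
  (F ×ˢ F ×ˢ F).image fun p => p.1 * p.2.1⁻¹ * p.2.2

variable [Infinite G]

/-- the next element -/
noncomputable def ch (F : Finset G) : G := (Infinite.exists_notMem_finset (bad F)).choose

theorem ch_spec (F : Finset G) : ch F ∉ bad F := (Infinite.exists_notMem_finset (bad F)).choose_spec

open Classical in
/-- finite stages -/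
noncomputable def FF : ℕ → Finset G
  | 0 => ∅
  | n + 1 => insert (ch (FF n)) (FF n)

/-- the sequence -/
noncomputable def s (n : ℕ) : G := ch (FF n)

theorem s_mem (m i : ℕ) (h : i < m) : (s i : G) ∈ FF m := by
  classical
  induction m with
  | zero => omega
  | succ m ih =>
    rw [FF]
    rcases Nat.lt_succ_iff_lt_or_eq.1 h with h | h
    · exact Finset.mem_insert_of_mem (ih h)
    · subst h; exact Finset.mem_insert_self _ _

theorem s_spec (m i j k : ℕ) (hi : i < m) (hj : j < m) (hk : k < m) :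
    (s m : G) ≠ s i * (s j)⁻¹ * s k := by
  classical
  intro h
  apply ch_spec (FF m : Finset G)
  rw [bad, Finset.mem_image]
  refine ⟨(s i, s j, s k), ?_, h.symm⟩
  simp [s_mem m i hi, s_mem m j hj, s_mem m k hk]

theorem s_inj : Function.Injective (s : ℕ → G) := by
  intro a b h
  rcases lt_trichotomy a b with hab | hab | hab
  · exact absurd h.symm (by simpa using s_spec (G := G) b a a a hab hab hab)
  · exact hab
  · exact absurd h (by simpa using s_spec (G := G) a b b b hab hab hab)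

/-- equal differences live at the same stage -/
theorem stageL (i j i' j' : ℕ) (_ : i ≠ j) (hij' : i' ≠ j')
    (h : (s i : G)⁻¹ * s j = (s i')⁻¹ * s j') : max i j ≥ max i' j' := by
  by_contra hcon
  push Not at hcon
  rcases lt_or_gt_of_ne hij' with h1 | h1
  · rw [max_eq_right h1.le] at hcon
    have := s_spec (G := G) j' i' i j h1 (lt_of_le_of_lt (le_max_left _ _) hcon)
      (lt_of_le_of_lt (le_max_right _ _) hcon)
    apply this
    rw [mul_assoc, h, mul_inv_cancel_left]
  · rw [max_eq_left h1.le] at hcon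
    have := s_spec (G := G) i' j' j i h1 (lt_of_le_of_lt (le_max_right _ _) hcon)
      (lt_of_le_of_lt (le_max_left _ _) hcon)
    apply this
    have h2 : (s j : G)⁻¹ * s i = (s j')⁻¹ * s i' := by
      have := congrArg (fun z => z⁻¹) h
      simpa using this
    rw [mul_assoc, h2, mul_inv_cancel_left]

theorem stageR (i j i' j' : ℕ) (_ : i ≠ j) (hij' : i' ≠ j')
    (h : (s j : G) * (s i)⁻¹ = s j' * (s i')⁻¹) : max i j ≥ max i' j' := by
  by_contra hcon
  push Not at hcon
  rcases lt_or_gt_of_ne hij' with h1 | h1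
  · rw [max_eq_right h1.le] at hcon
    have := s_spec (G := G) j' j i i' (lt_of_le_of_lt (le_max_right _ _) hcon)
      (lt_of_le_of_lt (le_max_left _ _) hcon) h1
    apply this
    rw [h, inv_mul_cancel_right]
  · rw [max_eq_left h1.le] at hcon
    have := s_spec (G := G) i' i j j' (lt_of_le_of_lt (le_max_left _ _) hcon)
      (lt_of_le_of_lt (le_max_right _ _) hcon) h1
    apply this
    have h2 : (s i : G) * (s j)⁻¹ = s i' * (s j')⁻¹ := by
      have := congrArg (fun z => z⁻¹) h
      simpa using this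
    rw [h2, inv_mul_cancel_right]

/-- the sparse set -/
def S (G : Type u) [Group G] [Infinite G] : Set G := range s

theorem three (m1 m2 m3 : ℕ) (i1 j1 i2 j2 i3 j3 : ℕ) (e1 : max i1 j1 = m1) (e2 : max i2 j2 = m2)
    (e3 : max i3 j3 = m3) (h12 : m1 = m2) (h13 : m1 = m3) :
    (i1 = i2 ∨ i1 = i3 ∨ i2 = i3) ∨ (j1 = j2 ∨ j1 = j3 ∨ j2 = j3) := by
  omega

theorem propL (c : G) (hc : c ≠ 1) (a1 a2 a3 : G) (h1 : a1 ∈ S G) (h1' : a1 * c ∈ S G)
    (h2 : a2 ∈ S G) (h2' : a2 * c ∈ S G) (h3 : a3 ∈ S G) (h3' : a3 * c ∈ S G) :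
    a1 = a2 ∨ a1 = a3 ∨ a2 = a3 := by
  obtain ⟨i1, rfl⟩ := h1
  obtain ⟨i2, rfl⟩ := h2
  obtain ⟨i3, rfl⟩ := h3
  obtain ⟨j1, e1⟩ := h1'
  obtain ⟨j2, e2⟩ := h2'
  obtain ⟨j3, e3⟩ := h3'
  have d1 : (s i1 : G)⁻¹ * s j1 = c := by rw [e1, inv_mul_cancel_left]
  have d2 : (s i2 : G)⁻¹ * s j2 = c := by rw [e2, inv_mul_cancel_left]
  have d3 : (s i3 : G)⁻¹ * s j3 = c := by rw [e3, inv_mul_cancel_left]
  have n1 : i1 ≠ j1 := by rintro rfl; rw [inv_mul_cancel] at d1; exact hc d1.symm
  have n2 : i2 ≠ j2 := by rintro rfl; rw [inv_mul_cancel] at d2; exact hc d2.symm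
  have n3 : i3 ≠ j3 := by rintro rfl; rw [inv_mul_cancel] at d3; exact hc d3.symm
  have m12 := stageL i1 j1 i2 j2 n1 n2 (d1.trans d2.symm)
  have m21 := stageL i2 j2 i1 j1 n2 n1 (d2.trans d1.symm)
  have m13 := stageL i1 j1 i3 j3 n1 n3 (d1.trans d3.symm)
  have m31 := stageL i3 j3 i1 j1 n3 n1 (d3.trans d1.symm)
  rcases three _ _ _ i1 j1 i2 j2 i3 j3 rfl rfl rfl (le_antisymm m21 m12) (le_antisymm m31 m13)
    with (h | h | h) | (h | h | h)
  · exact Or.inl (by rw [h])
  · exact Or.inr (Or.inl (by rw [h]))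
  · exact Or.inr (Or.inr (by rw [h]))
  · left; rw [h, e2] at e1; exact (mul_right_cancel e1).symm
  · right; left; rw [h, e3] at e1; exact (mul_right_cancel e1).symm
  · right; right; rw [h, e3] at e2; exact (mul_right_cancel e2).symm

theorem propR (c : G) (hc : c ≠ 1) (a1 a2 a3 : G) (h1 : a1 ∈ S G) (h1' : c * a1 ∈ S G)
    (h2 : a2 ∈ S G) (h2' : c * a2 ∈ S G) (h3 : a3 ∈ S G) (h3' : c * a3 ∈ S G) :
    a1 = a2 ∨ a1 = a3 ∨ a2 = a3 := by
  obtain ⟨i1, rfl⟩ := h1
  obtain ⟨i2, rfl⟩ := h2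
  obtain ⟨i3, rfl⟩ := h3
  obtain ⟨j1, e1⟩ := h1'
  obtain ⟨j2, e2⟩ := h2'
  obtain ⟨j3, e3⟩ := h3'
  have d1 : (s j1 : G) * (s i1)⁻¹ = c := by rw [e1, mul_inv_cancel_right]
  have d2 : (s j2 : G) * (s i2)⁻¹ = c := by rw [e2, mul_inv_cancel_right]
  have d3 : (s j3 : G) * (s i3)⁻¹ = c := by rw [e3, mul_inv_cancel_right]
  have n1 : i1 ≠ j1 := by rintro rfl; rw [mul_inv_cancel] at d1; exact hc d1.symm
  have n2 : i2 ≠ j2 := by rintro rfl; rw [mul_inv_cancel] at d2; exact hc d2.symm
  have n3 : i3 ≠ j3 := by rintro rfl; rw [mul_inv_cancel] at d3; exact hc d3.symm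
  have m12 := stageR i1 j1 i2 j2 n1 n2 (d1.trans d2.symm)
  have m21 := stageR i2 j2 i1 j1 n2 n1 (d2.trans d1.symm)
  have m13 := stageR i1 j1 i3 j3 n1 n3 (d1.trans d3.symm)
  have m31 := stageR i3 j3 i1 j1 n3 n1 (d3.trans d1.symm)
  rcases three _ _ _ i1 j1 i2 j2 i3 j3 rfl rfl rfl (le_antisymm m21 m12) (le_antisymm m31 m13)
    with (h | h | h) | (h | h | h)
  · exact Or.inl (by rw [h])
  · exact Or.inr (Or.inl (by rw [h]))
  · exact Or.inr (Or.inr (by rw [h]))
  · left; rw [h, e2] at e1; exact (mul_left_cancel e1).symm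
  · right; left; rw [h, e3] at e1; exact (mul_left_cancel e1).symm
  · right; right; rw [h, e3] at e2; exact (mul_left_cancel e2).symm

/-! ### the subshift -/

/-- The subshift: all subsets (characteristic functions) whose finite subsets are contained in
left translates of the sparse set. -/
def XX (G : Type u) [Group G] [Infinite G] : Set (G → Bool) :=
  {x | ∀ F : Finset G, (∀ h ∈ F, x h = true) → ∃ a : G, ∀ h ∈ F, a⁻¹ * h ∈ S G}

theorem XX_closed : IsClosed (XX G) := by
  have : XX G = ⋂ F : Finset G, {x | (∀ h ∈ F, x h = true) → ∃ a : G, ∀ h ∈ F, a⁻¹ * h ∈ S G} := by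
    ext x; simp [XX]
  rw [this]
  refine isClosed_iInter fun F => ?_
  by_cases hF : ∃ a : G, ∀ h ∈ F, a⁻¹ * h ∈ S G
  · have : {x : G → Bool | (∀ h ∈ F, x h = true) → ∃ a : G, ∀ h ∈ F, a⁻¹ * h ∈ S G} = univ :=
      eq_univ_of_forall fun x _ => hF
    rw [this]
    exact isClosed_univ
  · have : {x : G → Bool | (∀ h ∈ F, x h = true) → ∃ a : G, ∀ h ∈ F, a⁻¹ * h ∈ S G}
        = ({x | ∀ h ∈ F, x h = true})ᶜ := by
      ext x
      exact ⟨fun h hx => hF (h hx), fun h hx => absurd hx h⟩
    rw [this, isClosed_compl_iff]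
    have h2 : {x : G → Bool | ∀ h ∈ F, x h = true} = ⋂ h ∈ F, {x | x h = true} := by
      ext x; simp
    rw [h2]
    refine isOpen_biInter_finset fun h _ => ?_
    have hc : Continuous (fun x : G → Bool => x h) := continuous_apply h
    exact (isOpen_discrete ({true} : Set Bool)).preimage hc

/-- the shift action -/
instance : MulAction G (XX G) where
  smul g x := ⟨fun h => x.1 (g⁻¹ * h), by
    classical
    intro F hF
    obtain ⟨a, ha⟩ := x.2 (F.image fun h => g⁻¹ * h) (by
      intro h hh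
      obtain ⟨k, hk, rfl⟩ := Finset.mem_image.1 hh
      exact hF k hk)
    refine ⟨g * a, fun h hh => ?_⟩
    have := ha (g⁻¹ * h) (Finset.mem_image_of_mem _ hh)
    have e : (g * a)⁻¹ * h = a⁻¹ * (g⁻¹ * h) := by group
    rw [e]; exact this⟩
  one_smul x := by
    apply Subtype.ext
    funext h
    show x.1 (1⁻¹ * h) = x.1 h
    simp
  mul_smul g g' x := by
    apply Subtype.ext
    funext h
    show x.1 ((g * g')⁻¹ * h) = x.1 (g'⁻¹ * (g⁻¹ * h))
    rw [mul_inv_rev, mul_assoc]

theorem smul_apply (g : G) (x : XX G) (h : G) : (g • x).1 h = x.1 (g⁻¹ * h) := rfl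

theorem smul_cont (g : G) : Continuous (fun x : XX G => g • x) := by
  refine Continuous.subtype_mk ?_ _
  refine continuous_pi fun h => ?_
  exact (continuous_apply _).comp continuous_subtype_val

theorem ev_open (h : G) : IsOpen {x : XX G | x.1 h = true} := by
  have hc : Continuous (fun x : XX G => x.1 h) := (continuous_apply h).comp continuous_subtype_val
  exact (isOpen_discrete ({true} : Set Bool)).preimage hc

/-! ### `3`-tameness -/

/-- two elements in one coordinate -/
theorem two_points {n : ℕ} (U : Fin n → Set (XX G)) (i0 : Fin n) (h k : G) (hk : h ≠ k)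
    (hU : U i0 ⊆ {x | x.1 h = true ∧ x.1 k = true}) (J : Set G) (hJ : J.Infinite)
    (hind : IsIndependenceSet U J) : False := by
  classical
  set e := hJ.natEmbedding J with he
  set g : ℕ → G := fun t => (e t : G) with hg
  have hginj : Function.Injective g := fun a b h => e.injective (Subtype.ext h)
  obtain ⟨x, hx⟩ := hind {g 0, g 1, g 2} ⟨g 0, by simp⟩ (by
    intro z hz
    simp only [Finset.coe_insert, Finset.coe_singleton, mem_insert_iff, mem_singleton_iff] at hz
    rcases hz with rfl | rfl | rfl <;> exact (e _).2) (fun _ => i0)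
  rw [mem_iInter] at hx
  have hx' : ∀ t < 3, x.1 ((g t)⁻¹ * h) = true ∧ x.1 ((g t)⁻¹ * k) = true := by
    intro t ht
    have hm : g t ∈ ({g 0, g 1, g 2} : Finset G) := by
      interval_cases t <;> simp
    have := hU (hx ⟨g t, hm⟩)
    exact this
  obtain ⟨a, ha⟩ := x.2 {(g 0)⁻¹ * h, (g 0)⁻¹ * k, (g 1)⁻¹ * h, (g 1)⁻¹ * k, (g 2)⁻¹ * h,
    (g 2)⁻¹ * k} (by
    intro z hz
    simp only [Finset.mem_insert, Finset.mem_singleton] at hz
    rcases hz with rfl | rfl | rfl | rfl | rfl | rfl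
    · exact (hx' 0 (by norm_num)).1
    · exact (hx' 0 (by norm_num)).2
    · exact (hx' 1 (by norm_num)).1
    · exact (hx' 1 (by norm_num)).2
    · exact (hx' 2 (by norm_num)).1
    · exact (hx' 2 (by norm_num)).2)
  have hc : h⁻¹ * k ≠ 1 := by
    intro h1
    apply hk
    exact (inv_mul_eq_one.1 h1)
  have key : ∀ t : ℕ, a⁻¹ * ((g t)⁻¹ * h) * (h⁻¹ * k) = a⁻¹ * ((g t)⁻¹ * k) := by
    intro t; group
  have := propL (h⁻¹ * k) hc (a⁻¹ * ((g 0)⁻¹ * h)) (a⁻¹ * ((g 1)⁻¹ * h)) (a⁻¹ * ((g 2)⁻¹ * h))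
    (ha _ (by simp)) (by rw [key]; exact ha _ (by simp)) (ha _ (by simp))
    (by rw [key]; exact ha _ (by simp)) (ha _ (by simp)) (by rw [key]; exact ha _ (by simp))
  simp only [mul_right_inj, mul_left_inj, inv_inj] at this
  rcases this with h1 | h1 | h1
  · exact absurd (hginj h1) (by norm_num)
  · exact absurd (hginj h1) (by norm_num)
  · exact absurd (hginj h1) (by norm_num)

/-- two different coordinates -/
theorem two_singletons {n : ℕ} (U : Fin n → Set (XX G)) (i1 i2 : Fin n) (h k : G) (hk : h ≠ k)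
    (hU1 : U i1 ⊆ {x | x.1 h = true}) (hU2 : U i2 ⊆ {x | x.1 k = true}) (J : Set G)
    (hJ : J.Infinite) (hind : IsIndependenceSet U J) : False := by
  classical
  set e := hJ.natEmbedding J with he
  set g : ℕ → G := fun t => (e t : G) with hg
  have hginj : Function.Injective g := fun a b h => e.injective (Subtype.ext h)
  set I : Finset G := (Finset.range 6).image g with hI
  have hIne : I.Nonempty := ⟨g 0, Finset.mem_image_of_mem _ (by simp)⟩
  have hIJ : (I : Set G) ⊆ J := by
    intro z hz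
    obtain ⟨t, -, rfl⟩ := Finset.mem_image.1 (Finset.mem_coe.1 hz)
    exact (e t).2
  have hmem : ∀ t < 6, g t ∈ I := fun t ht => Finset.mem_image_of_mem _ (Finset.mem_range.2 ht)
  -- constant choices and a mixed choice
  obtain ⟨x1, hx1⟩ := hind I hIne hIJ (fun _ => i1)
  obtain ⟨x2, hx2⟩ := hind I hIne hIJ (fun _ => i2)
  obtain ⟨x3, hx3⟩ := hind I hIne hIJ
    (fun z => if z.1 ∈ (Finset.range 3).image g then i1 else i2)
  rw [mem_iInter] at hx1 hx2 hx3
  have q1 : ∀ t < 6, x1.1 ((g t)⁻¹ * h) = true := fun t ht => hU1 (hx1 ⟨g t, hmem t ht⟩)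
  have q2 : ∀ t < 6, x2.1 ((g t)⁻¹ * k) = true := fun t ht => hU2 (hx2 ⟨g t, hmem t ht⟩)
  have q3 : ∀ t < 3, x3.1 ((g t)⁻¹ * h) = true := by
    intro t ht
    have h1 := hx3 ⟨g t, hmem t (by omega)⟩
    have h2 : g t ∈ (Finset.range 3).image g := Finset.mem_image_of_mem _ (Finset.mem_range.2 ht)
    simp only [h2, if_true] at h1
    exact hU1 h1
  have q3' : ∀ t < 6, 3 ≤ t → x3.1 ((g t)⁻¹ * k) = true := by
    intro t ht ht3
    have h1 := hx3 ⟨g t, hmem t ht⟩
    have h2 : g t ∉ (Finset.range 3).image g := by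
      intro h3
      obtain ⟨u, hu, hut⟩ := Finset.mem_image.1 h3
      have := hginj hut
      rw [Finset.mem_range] at hu
      omega
    simp only [h2, if_false] at h1
    exact hU2 h1
  obtain ⟨a1, ha1⟩ := x1.2 ((Finset.range 6).image fun t => (g t)⁻¹ * h) (by
    intro z hz
    obtain ⟨t, ht, rfl⟩ := Finset.mem_image.1 hz
    exact q1 t (Finset.mem_range.1 ht))
  obtain ⟨a2, ha2⟩ := x2.2 ((Finset.range 6).image fun t => (g t)⁻¹ * k) (by
    intro z hz
    obtain ⟨t, ht, rfl⟩ := Finset.mem_image.1 hz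
    exact q2 t (Finset.mem_range.1 ht))
  obtain ⟨a3, ha3⟩ := x3.2 (((Finset.range 3).image fun t => (g t)⁻¹ * h) ∪
      ((Finset.Ico 3 6).image fun t => (g t)⁻¹ * k)) (by
    intro z hz
    rcases Finset.mem_union.1 hz with hz | hz
    · obtain ⟨t, ht, rfl⟩ := Finset.mem_image.1 hz
      exact q3 t (Finset.mem_range.1 ht)
    · obtain ⟨t, ht, rfl⟩ := Finset.mem_image.1 hz
      rw [Finset.mem_Ico] at ht
      exact q3' t ht.2 ht.1)
  have r1 : ∀ t < 6, a1⁻¹ * ((g t)⁻¹ * h) ∈ S G := fun t ht =>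
    ha1 _ (Finset.mem_image_of_mem _ (Finset.mem_range.2 ht))
  have r2 : ∀ t < 6, a2⁻¹ * ((g t)⁻¹ * k) ∈ S G := fun t ht =>
    ha2 _ (Finset.mem_image_of_mem _ (Finset.mem_range.2 ht))
  have r3 : ∀ t < 3, a3⁻¹ * ((g t)⁻¹ * h) ∈ S G := fun t ht =>
    ha3 _ (Finset.mem_union_left _ (Finset.mem_image_of_mem _ (Finset.mem_range.2 ht)))
  have r3' : ∀ t < 6, 3 ≤ t → a3⁻¹ * ((g t)⁻¹ * k) ∈ S G := fun t ht ht3 =>
    ha3 _ (Finset.mem_union_right _ (Finset.mem_image_of_mem _ (Finset.mem_Ico.2 ⟨ht3, ht⟩)))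
  have gne : ∀ t u : ℕ, t ≠ u → g t ≠ g u := fun t u htu h => htu (hginj h)
  have e13 : a1 = a3 := by
    by_contra hne
    have hc : a3⁻¹ * a1 ≠ 1 := by
      intro h1
      exact hne (inv_mul_eq_one.1 h1).symm
    have key : ∀ t : ℕ, a3⁻¹ * a1 * (a1⁻¹ * ((g t)⁻¹ * h)) = a3⁻¹ * ((g t)⁻¹ * h) := by
      intro t; group
    have := propR (a3⁻¹ * a1) hc _ _ _ (r1 0 (by norm_num)) (by rw [key]; exact r3 0 (by norm_num))
      (r1 1 (by norm_num)) (by rw [key]; exact r3 1 (by norm_num))
      (r1 2 (by norm_num)) (by rw [key]; exact r3 2 (by norm_num))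
    simp only [mul_right_inj, mul_left_inj, inv_inj] at this
    rcases this with h1 | h1 | h1
    · exact gne 0 1 (by norm_num) h1
    · exact gne 0 2 (by norm_num) h1
    · exact gne 1 2 (by norm_num) h1
  have e23 : a2 = a3 := by
    by_contra hne
    have hc : a3⁻¹ * a2 ≠ 1 := by
      intro h1
      exact hne (inv_mul_eq_one.1 h1).symm
    have key : ∀ t : ℕ, a3⁻¹ * a2 * (a2⁻¹ * ((g t)⁻¹ * k)) = a3⁻¹ * ((g t)⁻¹ * k) := by
      intro t; group
    have := propR (a3⁻¹ * a2) hc _ _ _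
      (r2 3 (by norm_num)) (by rw [key]; exact r3' 3 (by norm_num) (by norm_num))
      (r2 4 (by norm_num)) (by rw [key]; exact r3' 4 (by norm_num) (by norm_num))
      (r2 5 (by norm_num)) (by rw [key]; exact r3' 5 (by norm_num) (by norm_num))
    simp only [mul_right_inj, mul_left_inj, inv_inj] at this
    rcases this with h1 | h1 | h1
    · exact gne 3 4 (by norm_num) h1
    · exact gne 3 5 (by norm_num) h1
    · exact gne 4 5 (by norm_num) h1
  rw [e13] at r1
  rw [e23] at r2
  have hc : h⁻¹ * k ≠ 1 := fun h1 => hk (inv_mul_eq_one.1 h1)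
  have key : ∀ t : ℕ, a3⁻¹ * ((g t)⁻¹ * h) * (h⁻¹ * k) = a3⁻¹ * ((g t)⁻¹ * k) := by
    intro t; group
  have := propL (h⁻¹ * k) hc _ _ _ (r1 0 (by norm_num)) (by rw [key]; exact r2 0 (by norm_num))
    (r1 1 (by norm_num)) (by rw [key]; exact r2 1 (by norm_num))
    (r1 2 (by norm_num)) (by rw [key]; exact r2 2 (by norm_num))
  simp only [mul_right_inj, mul_left_inj, inv_inj] at this
  rcases this with h1 | h1 | h1
  · exact gne 0 1 (by norm_num) h1
  · exact gne 0 2 (by norm_num) h1
  · exact gne 1 2 (by norm_num) h1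

theorem three_tame : IsNTame G (XX G) 3 := by
  classical
  intro x hx
  by_contra hcon
  push Not at hcon
  -- every coordinate has at most one element
  have h1 : ∀ i : Fin 3, ∀ h k : G, (x i).1 h = true → (x i).1 k = true → h = k := by
    intro i h k hh hk
    by_contra hne
    obtain ⟨J, hJ, hind⟩ := hx (fun j => if j = i then {y | y.1 h = true ∧ y.1 k = true} else univ)
      (by
        intro j
        by_cases hj : j = i
        · simp only [hj, if_true]
          exact ((ev_open h).inter (ev_open k)).mem_nhds ⟨hh, hk⟩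
        · simp only [hj, if_false]
          exact univ_mem)
    exact two_points _ i h k hne (by simp) J hJ hind
  have h2 : ∀ i j : Fin 3, i ≠ j → ∀ h k : G, (x i).1 h = true → (x j).1 k = true → h = k := by
    intro i j hij h k hh hk
    by_contra hne
    obtain ⟨J, hJ, hind⟩ := hx (fun l => if l = i then {y | y.1 h = true} else
        if l = j then {y | y.1 k = true} else univ)
      (by
        intro l
        by_cases hl : l = i
        · simp only [hl, if_true]
          exact (ev_open h).mem_nhds hh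
        · by_cases hl' : l = j
          · simp only [hl', if_neg hij.symm, if_true]
            exact (ev_open k).mem_nhds hk
          · simp only [hl, hl', if_false]
            exact univ_mem)
    exact two_singletons _ i j h k hne (by simp) (by simp [hij.symm]) J hJ hind
  -- two coordinates are equal
  have h3 : ∀ i j : Fin 3, i ≠ j → (∃ h, (x i).1 h = true) → (∃ k, (x j).1 k = true) → False := by
    rintro i j hij ⟨h, hh⟩ ⟨k, hk⟩
    have hkh : h = k := h2 i j hij h k hh hk
    subst hkh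
    apply hcon i j hij
    apply Subtype.ext
    funext l
    by_cases hl : l = h
    · rw [hl, hh, hk]
    · have e1 : (x i).1 l = false := by
        rw [Bool.eq_false_iff]
        intro h4
        exact hl (h1 i l h h4 hh)
      have e2 : (x j).1 l = false := by
        rw [Bool.eq_false_iff]
        intro h4
        exact hl (h1 j l h h4 hk)
      rw [e1, e2]
  have h4 : ∀ i j : Fin 3, i ≠ j → (¬ ∃ h, (x i).1 h = true) → (¬ ∃ k, (x j).1 k = true) → False := by
    intro i j hij hi hj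
    apply hcon i j hij
    apply Subtype.ext
    funext l
    push Not at hi hj
    have e1 : (x i).1 l = false := Bool.eq_false_iff.2 (hi l)
    have e2 : (x j).1 l = false := Bool.eq_false_iff.2 (hj l)
    rw [e1, e2]
  by_cases c0 : ∃ h, (x 0).1 h = true
  · by_cases c1 : ∃ h, (x 1).1 h = true
    · exact h3 0 1 (by decide) c0 c1
    · by_cases c2 : ∃ h, (x 2).1 h = true
      · exact h3 0 2 (by decide) c0 c2
      · exact h4 1 2 (by decide) c1 c2
  · by_cases c1 : ∃ h, (x 1).1 h = true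
    · by_cases c2 : ∃ h, (x 2).1 h = true
      · exact h3 1 2 (by decide) c1 c2
      · exact h4 0 2 (by decide) c0 c2
    · exact h4 0 1 (by decide) c0 c1

/-! ### the system is not tame -/

omit [Group G] [Infinite G] in
theorem finite_of_three (T : Set G) (hT : ∀ a ∈ T, ∀ b ∈ T, ∀ c ∈ T, a = b ∨ a = c ∨ b = c) :
    T.Finite := by
  by_contra hcon
  set e := (show T.Infinite from hcon).natEmbedding T
  rcases hT (e 0) (e 0).2 (e 1) (e 1).2 (e 2) (e 2).2 with h | h | h
  · exact absurd (e.injective (Subtype.ext h)) (by norm_num)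
  · exact absurd (e.injective (Subtype.ext h)) (by norm_num)
  · exact absurd (e.injective (Subtype.ext h)) (by norm_num)

theorem window (x : XX G) (W : Set (XX G)) (hW : W ∈ 𝓝 x) :
    ∃ F : Set G, F.Finite ∧ ∀ y : XX G, (∀ h ∈ F, y.1 h = x.1 h) → y ∈ W := by
  rw [nhds_subtype, mem_comap] at hW
  obtain ⟨T, hT, hTW⟩ := hW
  rw [nhds_pi, Filter.mem_pi] at hT
  obtain ⟨F, hF, t, ht, htT⟩ := hT
  refine ⟨F, hF, fun y hy => hTW (htT ?_)⟩
  intro i hi
  rw [hy i hi]
  exact mem_of_mem_nhds (ht i)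

open Classical in
/-- finite sets of elements of `S` give points -/
noncomputable def pt (P : Set G) (hP : P ⊆ S G) : XX G := ⟨fun h => decide (h ∈ P), by
  intro F hF
  refine ⟨1, fun h hh => ?_⟩
  have := hF h hh
  rw [decide_eq_true_iff] at this
  simpa using hP this⟩

theorem pt_apply (P : Set G) (hP : P ⊆ S G) (h : G) : (pt P hP).1 h = true ↔ h ∈ P := by
  simp [pt]

theorem not_two_tame : ¬ IsNTame G (XX G) 2 := by
  classical
  intro hcon
  -- the point with support `{1}`, a translate of a singleton of `S`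
  set s0 : G := s 0 with hs0
  have hs0S : ({s0} : Set G) ⊆ S G := by
    rintro _ rfl; exact ⟨0, rfl⟩
  set d : XX G := s0⁻¹ • pt {s0} hs0S with hd
  have hd1 : ∀ h : G, d.1 h = true ↔ h = 1 := by
    intro h
    rw [hd, smul_apply, pt_apply, inv_inv, mem_singleton_iff]
    constructor
    · intro h1; simpa using h1
    · rintro rfl; simp
  set z : XX G := pt ∅ (empty_subset _) with hz
  have hz1 : ∀ h : G, z.1 h = false := by
    intro h
    rw [Bool.eq_false_iff, Ne, hz, pt_apply]
    exact fun h => h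
  have hIT : IsITTuple G ![d, z] := by
    intro U hU
    obtain ⟨F0, hF0, hw0⟩ := window _ _ (hU 0)
    obtain ⟨F1, hF1, hw1⟩ := window _ _ (hU 1)
    set F : Set G := F0 ∪ F1 with hF
    have hFfin : F.Finite := hF0.union hF1
    have hTfin : {a : G | a ∈ S G ∧ ∃ f ∈ F, f ≠ 1 ∧ a * f ∈ S G}.Finite := by
      have : {a : G | a ∈ S G ∧ ∃ f ∈ F, f ≠ 1 ∧ a * f ∈ S G} ⊆
          ⋃ f ∈ F, {a : G | a ∈ S G ∧ f ≠ 1 ∧ a * f ∈ S G} := by
        rintro a ⟨ha, f, hf, h1, h2⟩
        exact mem_biUnion hf ⟨ha, h1, h2⟩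
      refine (hFfin.biUnion fun f _ => ?_).subset this
      apply finite_of_three
      rintro a ⟨ha, hf, ha'⟩ b ⟨hb, -, hb'⟩ c ⟨hc, -, hc'⟩
      exact propL f hf a b c ha ha' hb hb' hc hc'
    have hSinf : (S G).Infinite := infinite_range_of_injective s_inj
    refine ⟨(fun a => a⁻¹) '' (S G \ {a : G | a ∈ S G ∧ ∃ f ∈ F, f ≠ 1 ∧ a * f ∈ S G}), ?_, ?_⟩
    · exact (hSinf.sdiff hTfin).image (inv_injective.injOn)
    · intro I hI hIJ σ
      -- the point
      have hP : {h : G | ∃ hh : h⁻¹ ∈ I, σ ⟨h⁻¹, hh⟩ = 0} ⊆ S G := by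
        rintro h ⟨hh, -⟩
        obtain ⟨a, ha, hah⟩ := hIJ hh
        have : a = h := inv_injective hah
        rw [← this]; exact ha.1
      refine ⟨pt _ hP, ?_⟩
      rw [mem_iInter]
      rintro ⟨g, hg⟩
      obtain ⟨a, ha, hag⟩ := hIJ hg
      have hag' : a⁻¹ = g := hag
      have hga : g⁻¹ = a := by rw [← hag', inv_inv]
      have hother : ∀ f ∈ F, f ≠ 1 → (g • pt _ hP).1 f = false := by
        intro f hf hf1
        rw [Bool.eq_false_iff, Ne, smul_apply, pt_apply, hga]
        intro h1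
        exact ha.2 ⟨ha.1, f, hf, hf1, hP h1⟩
      have hone : (g • pt _ hP).1 1 = true ↔ σ ⟨g, hg⟩ = 0 := by
        rw [smul_apply, pt_apply, mul_one]
        constructor
        · rintro ⟨hh, h1⟩
          have : (⟨g⁻¹⁻¹, hh⟩ : I) = ⟨g, hg⟩ := Subtype.ext (inv_inv g)
          rw [← this]; exact h1
        · intro h1
          have hh : g⁻¹⁻¹ ∈ I := by rw [inv_inv]; exact hg
          refine ⟨hh, ?_⟩
          have : (⟨g⁻¹⁻¹, hh⟩ : I) = ⟨g, hg⟩ := Subtype.ext (inv_inv g)
          rw [this]; exact h1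
      show g • pt _ hP ∈ U (σ ⟨g, hg⟩)
      rcases Fin.exists_fin_two.1 ⟨σ ⟨g, hg⟩, rfl⟩ with h0 | h0
      · have hU0 : U (σ ⟨g, hg⟩) = U 0 := by rw [h0]
        rw [hU0]
        refine hw0 _ ?_
        intro f hf
        show (g • pt _ hP).1 f = d.1 f
        by_cases hf1 : f = 1
        · subst hf1
          rw [(hd1 1).2 rfl]
          exact hone.2 h0
        · rw [hother f (Or.inl hf) hf1]
          symm
          rw [Bool.eq_false_iff]
          exact fun h => hf1 ((hd1 f).1 h)
      · have hU0 : U (σ ⟨g, hg⟩) = U 1 := by rw [h0]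
        rw [hU0]
        refine hw1 _ ?_
        intro f hf
        show (g • pt _ hP).1 f = z.1 f
        rw [hz1]
        by_cases hf1 : f = 1
        · subst hf1
          rw [Bool.eq_false_iff, Ne, hone, h0]
          decide
        · exact hother f (Or.inr hf) hf1
  obtain ⟨i, j, hij, hxx⟩ := hcon ![d, z] hIT
  have hdz : d ≠ z := by
    intro h
    have h1 := (hd1 1).2 rfl
    rw [h, hz1] at h1
    exact absurd h1 (by decide)
  fin_cases i <;> fin_cases j
  · exact hij rfl
  · exact hdz hxx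
  · exact hdz hxx.symm
  · exact hij rfl

end

end Pool.Agent.X194.TT
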